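import Pool.Agent.H6.FN.All

/-!
# Average degrees over invariant characters
-/

set_option autoImplicit false

namespace Pool.Agent.Results.MP_7500ea_al.AverageDegrees

/-- Let `e ≥ 3`, let `N` be a normal subgroup of the finite group `G`, let `θ` be a
`G`-invariant irreducible character of `N`, and let `Y = G / N` be in the class `𝒞 e` of the
finite groups with a normal subgroup `M` such that

* there is a series of normal subgroups of `Y` from `1` to `M` whose factors are solvable or
  powers `S ^ k` of simple groups with `FI.PP e k S`;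
* every minimal normal subgroup of `Y / M` is a power `S ^ k` with `FI.FewK e k S` (nothing else
  is assumed about the composition factors of `Y / M`).

Then `acd(G|θ) ≥ θ(1) |Y : Sol(Y)| ^ (1 / e)`. For `e ≥ log 120 / log (26/7) = 3.648…` the class
`𝒞 e` contains the groups with factors `PSL(2, p) ^ k` below `M` and minimal normal
subgroups `A_m ^ k` of `Y / M`, `m ≥ 200`. -/
theorem result (e : ℝ) (he : 3 ≤ e) (G : Type) [Group G]
    [Finite G] (N : Subgroup G) (θ : N → ℂ) (hθ : θ ∈ AMc.Irr N)
    (hinv : ∀ g : G, ∀ a b : N, (b : G) = g * a * g⁻¹ → θ b = θ a)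
    (Y : Type) [Group Y] [Finite Y] (q : G →* Y)
    (hY : FI.SerK (FI.PP e) (FI.FewK e) Y ∨
      (Real.log 120 / Real.log (26 / 7) ≤ e ∧ FI.SerK (FI.PQ e) FI.AltK Y))
    (hq : Function.Surjective q) (hN : q.ker = N) :
    (θ 1).re * ((FI.sol Y).index : ℝ) ^ (1 / e) ≤ FI.acd N θ := by
  rcases hY with hY | ⟨h, hY⟩
  · exact FI.All4.hInvK e he G N θ hθ hinv Y q hY hq hN
  · exact FI.All4.hInvK e he G N θ hθ hinv Y q (FI.All4.pqalt e h Y hY) hq hN

end Pool.Agent.Results.MP_7500ea_al.AverageDegrees
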