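import Pool.Agent.H6.FN.All

/-!
# The Fitting index and the average degree over a linear character: groups with chief factors
`PSL(2, p) ^ k`, and groups with minimal normal subgroups `A_m ^ k`
-/

set_option autoImplicit false

namespace Pool.Agent.Results.MP_7500ea_al.CompositionFactors

/-- Let `𝒦 e` be the class of the finite groups `G` with a normal subgroup `N` such that

* there is a series of normal subgroups of `G` from `1` to `N` whose factors are solvable or of
  the form `PSL(2, p) ^ k`, `p ≥ 5` a prime number, where `k = 1` or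
  `24 ^ (1/3) p (p ^ 2 - 1) ≤ ((p - 1) / 2) ^ e`;
* every minimal normal subgroup of `G / N` is of the form `A_m ^ k`, where `m ≥ 200`, or
  `m ≥ 100` and `k = 1` (nothing else is assumed about the composition factors of `G / N`).

The exponents `e` such that for every `G ∈ 𝒦 e` there is a linear character `θ` of the Fitting
subgroup `F(G)` with `|G : F(G)| ≤ acd(G|θ) ^ e` are the numbers
`e ≥ log 120 / log (26/7) = 3.648…`. In particular `e = 4` is possible. For `e = 4` the condition
on `p` and `k` is `k = 1` or `p ≥ 53` and for `e = 17/2` there is no condition. -/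
theorem result :
    (∀ e : ℝ, (∀ (G : Type) [Group G] [Finite G], FI.SerK (FI.PQ e) FI.AltK G →
      ∃ θ ∈ AMc.Irr (FI.fit G), θ 1 = 1 ∧
        ((FI.fit G).index : ℝ) ≤ FI.acd (FI.fit G) θ ^ e) ↔
      Real.log 120 / Real.log (26 / 7) ≤ e) ∧
    Real.log 120 / Real.log (26 / 7) < 4 ∧
    (∀ p : ℕ, 53 ≤ p → (24 : ℝ) ^ ((1 : ℝ) / 3) * (p * ((p : ℝ) ^ 2 - 1)) ≤
      (((p : ℝ) - 1) / 2) ^ (4 : ℝ)) ∧
    (∀ p : ℕ, 5 ≤ p → (24 : ℝ) ^ ((1 : ℝ) / 3) * (p * ((p : ℝ) ^ 2 - 1)) ≤
      (((p : ℝ) - 1) / 2) ^ ((17 : ℝ) / 2)) :=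
  ⟨fun e => ⟨FI.All4.hPA' e, fun h => FI.All4.hPA e h⟩, FI.e0_lt, FI.All3.rN53, FI.All3.rN85⟩

end Pool.Agent.Results.MP_7500ea_al.CompositionFactors
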