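import Pool.Agent.H6.FN.Mix

/-!
# The Fitting index and the average degree over a linear character: groups whose factor group by
the solvable radical has few conjugacy classes
-/

set_option autoImplicit false

namespace Pool.Agent.Results.MP_7500ea_al.FewConjugacyClasses

/-- Let `e ≥ 91/25 = 3.64` (for instance `e = 4`) and let `Y` be a finite group with trivial
solvable radical such that `k(Y) ≤ |Y| ^ (1/2 - 3/(2e))`, where `k(Y)` is the number of conjugacy
classes of `Y` (for `e = 4`: `k(Y) ^ 8 ≤ |Y|`), or more generally such that for every subgroup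
`T` of `Y` with `|Y : T| < |Y| ^ (1/e)`

* `k(T) ≤ |Y| ^ (1/2 - 1/e) |Y : T| ^ (1/2)`, or
* `|Y| ^ (1/e) ≤ |Y : T| acd(X|ν)` for all central extensions `X` of `T` and all irreducible
  characters `ν` of the kernel.

Then every finite group `G` with a solvable normal subgroup whose factor group is isomorphic to
`Y` has a linear character `θ` of its Fitting subgroup `F(G)` such that
`|G : F(G)| ≤ acd(G|θ) ^ e`. -/
theorem result (e : ℝ) (he : 91 / 25 ≤ e) (Y : Type) [Group Y] [Finite Y] (hs : FI.sol Y = ⊥)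
    (H : (Nat.card (ConjClasses Y) : ℝ) ≤ (Nat.card Y : ℝ) ^ (1 / 2 - 3 / (2 * e)) ∨
      ∀ T : Subgroup Y, (T.index : ℝ) < (Nat.card Y : ℝ) ^ (1 / e) →
        (Nat.card (ConjClasses T) : ℝ) ≤
          (Nat.card Y : ℝ) ^ (1 / 2 - 1 / e) * (T.index : ℝ) ^ ((1 : ℝ) / 2) ∨
        ∀ (X : Type) [Group X] [Finite X] (q : X →* T),
          Function.Surjective q → q.ker ≤ Subgroup.center X → ∀ ν ∈ AMc.Irr q.ker,
          (Nat.card Y : ℝ) ^ (1 / e) ≤ T.index * FI.acd q.ker ν)
    (G : Type) [Group G] [Finite G] (f : G →* Y) (hf : Function.Surjective f)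
    (hk : Group.IsSolvable f.ker) :
    ∃ θ ∈ AMc.Irr (FI.fit G), θ 1 = 1 ∧
      ((FI.fit G).index : ℝ) ≤ FI.acd (FI.fit G) θ ^ e :=
  FI.All4.hMix e he Y hs H G f hf hk

end Pool.Agent.Results.MP_7500ea_al.FewConjugacyClasses
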