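import Pool.Agent.H6.FN.All

/-!
# The Fitting index and the average degree over a linear character: reduction to simple groups
-/

set_option autoImplicit false

namespace Pool.Agent.Results.MP_7500ea_al.ReductionToSimpleGroups

/-- Let `e ≥ 91/25 = 3.64` (for instance `e = 4`) and let `G` be a finite group with a normal
subgroup `N` such that

* there is a series of normal subgroups of `G` from `1` to `N` whose factors are solvable or of
  the form `S ^ k`, `S` simple, with `FI.PP e k S`: either `FI.SGood e S`, or `k = 1` and
  `FI.One e S` (conditions on the indices of the subgroups of `S` and on the degrees of the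
  characters of central extensions of `S`);
* every minimal normal subgroup of `G / N` is of the form `S ^ k`, `S` nonabelian and simple, with
  `FI.FewK e k S`: for `j ≤ k` and every subgroup `P` of the symmetric group of degree `j`,
  `k(P) (k(S) |Aut S|) ^ j ≤ (|S| ^ (3/2 - 3/(2e))) ^ j`, where `k(X)` is the number of conjugacy
  classes of `X` (nothing else is assumed about the composition factors of `G / N`).

Then `G` has a linear character `θ` of its Fitting subgroup `F(G)` such that
`|G : F(G)| ≤ acd(G|θ) ^ e`. -/
theorem result (e : ℝ) (he : 91 / 25 ≤ e) (G : Type) [Group G] [Finite G]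
    (hG : FI.SerK (FI.PP e) (FI.FewK e) G) :
    ∃ θ ∈ AMc.Irr (FI.fit G), θ 1 = 1 ∧
      ((FI.fit G).index : ℝ) ≤ FI.acd (FI.fit G) θ ^ e :=
  FI.All4.hSerK e he G hG

end Pool.Agent.Results.MP_7500ea_al.ReductionToSimpleGroups
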